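import Pool.Agent.H21.HV.Defs
import Pool.Graph.R_seed8.TH104.HY.C

/-! Project HV (helper21), part CRO: labels of the vertices and of the edges between the two sides. -/

set_option autoImplicit false
open Classical Finset

namespace Pool.Agent.H64.HV

open Pool.Agent.H21.HV Pool.Agent.TH104.HY

/-- the window of the pair of types `a, b` (one of them low, the other one high) -/
noncomputable def pz (m q : ℕ) (a b : ℕ) : ℤ :=
  if a < m then Nw m q a ((b : ℤ) - m) else Nw m q b ((a : ℤ) - m)

theorem pz_comm {m q a b : ℕ} (h : ¬ (a < m ↔ b < m)) : pz m q a b = pz m q b a := by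
  unfold pz
  by_cases ha : a < m
  · have hb : ¬ b < m := fun hb => h (by simp [ha, hb])
    rw [if_pos ha, if_neg hb]
  · have hb : b < m := by
      by_contra hb
      exact h (by simp [ha, hb])
    rw [if_neg ha, if_pos hb]

theorem pz_inj {m q a b b' : ℕ} (hm : 2 * q + 1 ≤ m) (ha : a < 2 * m) (hb : b < 2 * m)
    (hb' : b' < 2 * m) (h : ¬ (a < m ↔ b < m)) (h' : ¬ (a < m ↔ b' < m))
    (he : pz m q a b = pz m q a b') : b = b' := by
  have hq0 : (0 : ℤ) ≤ q := by positivity
  have hmz : 2 * (q : ℤ) + 1 ≤ m := by exact_mod_cast hm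
  unfold pz at he
  by_cases ham : a < m
  · have hb2 : ¬ b < m := fun hb => h (by simp [ham, hb])
    have hb2' : ¬ b' < m := fun hb => h' (by simp [ham, hb])
    rw [if_pos ham, if_pos ham] at he
    have := Nw_inj hq0 hmz (i := (a : ℤ)) (by omega) (by omega) (by omega) (by omega)
      (by omega) (by omega) he
    omega
  · have hb2 : b < m := by
      by_contra hb2
      exact h (by simp [ham, hb2])
    have hb2' : b' < m := by
      by_contra hb2
      exact h' (by simp [ham, hb2])
    rw [if_neg ham, if_neg ham] at he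
    have e1 := Nw_add hq0 hmz (i := (b : ℤ)) (j := (a : ℤ) - m) (by omega) (by omega) (by omega)
      (by omega)
    have e2 := Nw_add hq0 hmz (i := (b' : ℤ)) (j := (a : ℤ) - m) (by omega) (by omega) (by omega)
      (by omega)
    have e3 : Nw m q ((a : ℤ) - m) b = Nw m q ((a : ℤ) - m) b' := by omega
    have := Nw_inj hq0 hmz (i := (a : ℤ) - m) (by omega) (by omega) (by omega) (by omega)
      (by omega) (by omega) e3
    omega

/-- the graph of the edges between the two sides in the window `n` -/
def wn {V : Type} (G : SimpleGraph V) (m q : ℕ) (T : V → ℕ) (n : ℤ) : SimpleGraph V where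
  Adj u v := G.Adj u v ∧ ¬ (T u < m ↔ T v < m) ∧ pz m q (T u) (T v) = n
  symm := ⟨fun u v h => ⟨h.1.symm, fun h' => h.2.1 h'.symm, by
    rw [← pz_comm h.2.1]; exact h.2.2⟩⟩
  loopless := ⟨fun u h => G.loopless.irrefl u h.1⟩

theorem t_CRO : S_CRO := by
  intro V _ G D q m w k T c hT
  obtain ⟨hm, hTm, hw, hc, hcc, hkw, H1, H2⟩ := hT
  have hq0 : (0 : ℤ) ≤ q := by positivity
  have hmz : 2 * (q : ℤ) + 1 ≤ m := by exact_mod_cast hm
  have hk0 : (0 : ℤ) ≤ k := by positivity
  have hkW : (k : ℤ) ≤ (w : ℤ) + 1 := by exact_mod_cast hkw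
  obtain ⟨B, hB⟩ : ∃ B : ℤ, B = ((q : ℤ) + 1) * k - 1 - q * (w + 1) := ⟨_, rfl⟩
  have c1 : (0 : ℤ) - 1 + (q + 1) * k ≤ B + q * (w + 1) := by rw [hB]; linarith
  -- colourings of the windows
  have hcol : ∀ n : ℤ, ∃ cl : V → V → ℕ, (∀ u v, cl u v = cl v u) ∧
      (∀ u v, (wn G m q T n).Adj u v → cl u v ≤ w) ∧
      ∀ u v v', (wn G m q T n).Adj u v → (wn G m q T n).Adj u v' → v ≠ v' →
        cl u v ≠ cl u v' := by
    intro n
    apply Pool.Agent.H238R2.HY.vizing
    intro v
    rw [← SimpleGraph.card_neighborFinset_eq_degree]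
    rcases ((wn G m q T n).neighborFinset v).eq_empty_or_nonempty with h0 | ⟨u0, hu0⟩
    · rw [h0]; simp
    · rw [SimpleGraph.mem_neighborFinset] at hu0
      refine le_trans (Finset.card_le_card ?_) (hw v (T u0))
      intro u hu
      rw [SimpleGraph.mem_neighborFinset] at hu
      rw [mem_filter, mem_filter]
      exact ⟨⟨mem_univ _, pz_inj hm (hTm v) (hTm u) (hTm u0) hu.2.1 hu0.2.1
        (hu.2.2.trans hu0.2.2.symm)⟩, hu.1⟩
  choose cl hcl1 hcl2 hcl3 using hcol
  -- bounds for the windows
  have hbd : ∀ i j : ℕ, i < m → m ≤ j → j < 2 * m →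
      (0 : ℤ) - 1 + (i + 1) * k ≤ B + Nw m q i ((j : ℤ) - m) * (w + 1) ∧
      B + Nw m q i ((j : ℤ) - m) * (w + 1) + w + 1 + (((j : ℤ) - m) + 1) * k ≤ D + 1 := by
    intro i j hi hj hj2
    have h1 := cross_low (m := m) (q := q) (W := (w : ℤ) + 1) (k := k) (p := 0) (B := B)
      (i := i) (j := (j : ℤ) - m) hq0 hmz (by omega) (by omega) (by omega) (by omega) hk0 hkW
      c1 H1
    have h2 := cross_low (m := m) (q := q) (W := (w : ℤ) + 1) (k := k) (p := 0) (B := B)
      (i := (j : ℤ) - m) (j := i) hq0 hmz (by omega) (by omega) (by omega) (by omega) hk0 hkW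
      c1 H1
    have h3 := Nw_add hq0 hmz (i := (i : ℤ)) (j := (j : ℤ) - m) (by omega) (by omega) (by omega)
      (by omega)
    refine ⟨h1, ?_⟩
    have h4 : Nw m q ((j : ℤ) - m) i = 2 * m - 2 - Nw m q i ((j : ℤ) - m) := by omega
    rw [h4] at h2
    rw [hB] at h2 ⊢
    nlinarith
  let x : V → ℕ := fun v => if T v < m then T v * k + c v else (T v - m) * k + c v
  let e : V → V → ℕ := fun u v =>
    if T u < m ↔ T v < m then 0
    else (B + pz m q (T u) (T v) * (w + 1) + cl (pz m q (T u) (T v)) u v).toNat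
  have hx1 : ∀ v, T v < m → ((x v : ℕ) : ℤ) + 1 ≤ ((T v : ℤ) + 1) * k := by
    intro v hv
    simp only [x, hv, if_true]
    have := hc v
    have h2 : T v * k + c v + 1 ≤ (T v + 1) * k := by nlinarith
    exact_mod_cast h2
  have hx2 : ∀ v, ¬ T v < m → ((x v : ℕ) : ℤ) + 1 ≤ (((T v : ℤ) - m) + 1) * k := by
    intro v hv
    simp only [x, hv, if_false]
    have := hc v
    have h2 : (T v - m) * k + c v + 1 ≤ ((T v - m) + 1) * k := by nlinarith
    have h3 : ((T v - m : ℕ) : ℤ) = (T v : ℤ) - m := by omega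
    have h4 : (((T v - m) * k + c v + 1 : ℕ) : ℤ) ≤ (((T v - m) + 1) * k : ℕ) := by
      exact_mod_cast h2
    push_cast at h4 ⊢
    rw [h3] at h4 ⊢
    exact h4
  have hval : ∀ u v, T u < m → m ≤ T v →
      ((e u v : ℕ) : ℤ) = B + Nw m q (T u) ((T v : ℤ) - m) * (w + 1) +
        cl (pz m q (T u) (T v)) u v := by
    intro u v hu hv
    have hn : ¬ (T u < m ↔ T v < m) := by
      intro h
      exact absurd (h.1 hu) (not_lt.2 hv)
    have hp : pz m q (T u) (T v) = Nw m q (T u) ((T v : ℤ) - m) := by
      unfold pz; rw [if_pos hu]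
    have h1 := (hbd (T u) (T v) hu hv (hTm v)).1
    have h2 : (0 : ℤ) ≤ B + Nw m q (T u) ((T v : ℤ) - m) * (w + 1) := by
      have h3 := hx1 u hu
      linarith [(Int.natCast_nonneg (x u))]
    simp only [e, hn, if_false]
    rw [hp, Int.toNat_of_nonneg]
    have := Int.natCast_nonneg (cl (Nw m q (T u) ((T v : ℤ) - m)) u v)
    linarith
  have hesym : ∀ u v, e u v = e v u := by
    intro u v
    by_cases h : T u < m ↔ T v < m
    · have h' : T v < m ↔ T u < m := h.symm
      simp only [e]
      rw [if_pos h, if_pos h']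
    · have h' : ¬ (T v < m ↔ T u < m) := fun h2 => h h2.symm
      simp only [e]
      rw [if_neg h, if_neg h', pz_comm h', hcl1]
  refine ⟨x, e, ?_, ?_, hesym, ?_, ?_⟩
  · intro v
    by_cases hv : T v < m
    · have h1 := hx1 v hv
      have h2 : ((T v : ℤ) + 1) * k ≤ m * k := mul_le_mul_of_nonneg_right (by omega) hk0
      have : ((x v : ℕ) : ℤ) < ((m * k : ℕ) : ℤ) := by push_cast; linarith
      exact_mod_cast this
    · have h1 := hx2 v hv
      have h0 := hTm v
      have h2 : (((T v : ℤ) - m) + 1) * k ≤ m * k := mul_le_mul_of_nonneg_right (by omega) hk0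
      have : ((x v : ℕ) : ℤ) < ((m * k : ℕ) : ℤ) := by push_cast; linarith
      exact_mod_cast this
  · intro u v huv hs h
    by_cases hTT : T u = T v
    · have h1 := hcc u v huv hTT
      simp only [x, hTT] at h
      split_ifs at h <;> omega
    · have hu := hc u
      have hv := hc v
      by_cases hum : T u < m
      · have hvm := hs.1 hum
        simp only [x, hum, hvm, if_true] at h
        rcases lt_or_gt_of_ne hTT with h1 | h1
        · have h5 : (T u + 1) * k ≤ T v * k := Nat.mul_le_mul_right _ h1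
          have h6 : (T u + 1) * k = T u * k + k := by ring
          omega
        · have h5 : (T v + 1) * k ≤ T u * k := Nat.mul_le_mul_right _ h1
          have h6 : (T v + 1) * k = T v * k + k := by ring
          omega
      · have hvm : ¬ T v < m := fun h' => hum (hs.2 h')
        simp only [x, hum, hvm, if_false] at h
        rcases lt_or_gt_of_ne hTT with h1 | h1
        · have h5 : (T u - m + 1) * k ≤ (T v - m) * k := Nat.mul_le_mul_right _ (by omega)
          have h6 : (T u - m + 1) * k = (T u - m) * k + k := by ring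
          omega
        · have h5 : (T v - m + 1) * k ≤ (T u - m) * k := Nat.mul_le_mul_right _ (by omega)
          have h6 : (T v - m + 1) * k = (T v - m) * k + k := by ring
          omega
  · intro u v huv hu hv
    have h1 := hval u v hu hv
    obtain ⟨h2, h3⟩ := hbd (T u) (T v) hu hv (hTm v)
    have h4 := hx1 u hu
    have h5 := hx2 v (not_lt.2 hv)
    have hn : ¬ (T u < m ↔ T v < m) := fun h => absurd (h.1 hu) (not_lt.2 hv)
    have h6 : cl (pz m q (T u) (T v)) u v ≤ w := hcl2 _ u v ⟨huv, hn, rfl⟩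
    have h7 : ((cl (pz m q (T u) (T v)) u v : ℕ) : ℤ) ≤ w := by exact_mod_cast h6
    have h8 := Int.natCast_nonneg (cl (pz m q (T u) (T v)) u v)
    constructor
    · have : ((x u : ℕ) : ℤ) ≤ e u v := by linarith
      exact_mod_cast this
    · have : ((e u v : ℕ) : ℤ) + x v + 1 ≤ D := by linarith
      exact_mod_cast this
  · intro u v v' huv huv' hne hn hn' h
    have key : ∀ y, ¬ (T u < m ↔ T y < m) → ((e u y : ℕ) : ℤ) =
        B + pz m q (T u) (T y) * (w + 1) + cl (pz m q (T u) (T y)) u y := by
      intro y hy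
      by_cases hu : T u < m
      · have hym : m ≤ T y := by
          by_contra h'
          push Not at h'
          exact hy (by simp [hu, h'])
        rw [hval u y hu hym]
        unfold pz
        rw [if_pos hu]
      · have hym : T y < m := by
          by_contra h'
          exact hy (by simp [hu, h'])
        rw [hesym u y, hval y u hym (not_lt.1 hu)]
        have hp : pz m q (T u) (T y) = Nw m q (T y) ((T u : ℤ) - m) := by
          unfold pz; rw [if_neg hu]
        have hp' : pz m q (T y) (T u) = Nw m q (T y) ((T u : ℤ) - m) := by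
          unfold pz; rw [if_pos hym]
        rw [hp, hp', hcl1]
    have e1 := key v hn
    have e2 := key v' hn'
    have h6 : cl (pz m q (T u) (T v)) u v ≤ w := hcl2 _ u v ⟨huv, hn, rfl⟩
    have h6' : cl (pz m q (T u) (T v')) u v' ≤ w := hcl2 _ u v' ⟨huv', hn', rfl⟩
    by_cases hp : pz m q (T u) (T v) = pz m q (T u) (T v')
    · rw [← hp] at e2
      refine hcl3 (pz m q (T u) (T v)) u v v' ⟨huv, hn, rfl⟩ ⟨huv', hn', hp.symm⟩ hne ?_
      have : ((e u v : ℕ) : ℤ) = e u v' := by exact_mod_cast h
      omega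
    · rcases win_sep (W := (w : ℤ) + 1) (B := B) (by positivity) hp with h9 | h9
      · have : ((e u v : ℕ) : ℤ) = e u v' := by exact_mod_cast h
        omega
      · have : ((e u v : ℕ) : ℤ) = e u v' := by exact_mod_cast h
        omega

end Pool.Agent.H64.HV
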