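import Pool.Agent.H21.HV.Defs
import Pool.Graph.R_pool_sql_team_seeded_efc1946e.K1H69.HYC.Hinj
import Pool.Graph.R_pool_sql_team_seeded_efc1946e.K1H26.HYC.Tup
import Pool.Graph.R_pool_sql_team_seeded_efc1946e.K1H2.HYC.NEG

/-! Project HV (helper21), part LAB: labels of the mids. -/

set_option autoImplicit false
open Classical Finset

namespace Pool.Agent.H64.HV

open Pool.Agent.H21.HV Pool.Agent.K1H34.HYC

theorem hinj : S_HINJ :=
  Pool.Agent.K1H69.HYC.t_HINJ Pool.Agent.K1H26.HYC.t_TUP Pool.Agent.K1H2.HYC.t_NEG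
    Pool.Agent.K1H69.HYC.t_LOP

/-- sorting a finite set -/
theorem srt {V : Type} (a : V → ℕ) (S : Finset V) :
    ∃ σ : V → ℕ, (∀ z ∈ S, σ z < S.card) ∧ (∀ z ∈ S, ∀ z' ∈ S, σ z = σ z' → z = z') ∧
      ∀ z ∈ S, ∀ z' ∈ S, σ z < σ z' → a z ≤ a z' := by
  induction S using Finset.induction_on_max_value a with
  | empty => exact ⟨fun _ => 0, by simp, by simp, by simp⟩
  | insert x S hx hmax ih =>
    obtain ⟨σ, h1, h2, h3⟩ := ih
    refine ⟨fun z => if z = x then S.card else σ z, ?_, ?_, ?_⟩
    · intro z hz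
      rw [card_insert_of_notMem hx]
      by_cases h : z = x
      · simp [h]
      · have := h1 z (mem_of_mem_insert_of_ne hz h)
        simp only [h, if_false]
        omega
    · intro z hz z' hz' he
      by_cases h : z = x
      · by_cases h' : z' = x
        · rw [h, h']
        · exfalso
          have := h1 z' (mem_of_mem_insert_of_ne hz' h')
          simp only [h, h', if_true, if_false] at he
          omega
      · by_cases h' : z' = x
        · exfalso
          have := h1 z (mem_of_mem_insert_of_ne hz h)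
          simp only [h, h', if_true, if_false] at he
          omega
        · simp only [h, h', if_false] at he
          exact h2 z (mem_of_mem_insert_of_ne hz h) z' (mem_of_mem_insert_of_ne hz' h') he
    · intro z hz z' hz' he
      by_cases h : z = x
      · by_cases h' : z' = x
        · rw [h, h']
        · exfalso
          have := h1 z' (mem_of_mem_insert_of_ne hz' h')
          simp only [h, h', if_true, if_false] at he
          omega
      · by_cases h' : z' = x
        · rw [h']
          exact hmax z (mem_of_mem_insert_of_ne hz h)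
        · simp only [h, h', if_false] at he
          exact h3 z (mem_of_mem_insert_of_ne hz h) z' (mem_of_mem_insert_of_ne hz' h') he

/-- clusters of ranks `[j s, (j+1) s)` are small -/
theorem clu {V : Type} (S : Finset V) (σ : V → ℕ) (s j : ℕ) (hs : 0 < s)
    (h2 : ∀ z ∈ S, ∀ z' ∈ S, σ z = σ z' → z = z') :
    (S.filter (fun z => σ z / s = j)).card ≤ s := by
  have h : (S.filter (fun z => σ z / s = j)).card ≤ (Finset.Ico (j * s) (j * s + s)).card := by
    apply Finset.card_le_card_of_injOn σ
    · intro z hz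
      have hz' := (mem_filter.1 (Finset.mem_coe.1 hz)).2
      have h1 := Nat.div_add_mod (σ z) s
      have h3 := Nat.mod_lt (σ z) hs
      rw [hz'] at h1
      have : s * j = j * s := Nat.mul_comm _ _
      simp only [Finset.coe_Ico, Set.mem_Ico]
      constructor <;> omega
    · intro z hz z' hz' he
      exact h2 z (mem_filter.1 (Finset.mem_coe.1 hz)).1 z' (mem_filter.1 (Finset.mem_coe.1 hz')).1 he
  simpa using h

/-- the special case of `hinj` which is used -/
theorem hinj2 (V Ix : Type) [Fintype V] (Γ : SimpleGraph V) (cl : V → Ix)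
    (Pal : Ix → Finset ℕ) (s t : ℕ) (hst : 128 * t + 70 ≤ s) (hPal : ∀ i, (Pal i).card = s)
    (hΓd : ∀ x, (univ.filter (fun y => Γ.Adj x y)).card ≤ t)
    (hclu : ∀ i, (univ.filter (fun x => cl x = i)).card ≤ s) :
    ∃ f : V → ℕ, (∀ x, f x ∈ Pal (cl x)) ∧ (∀ x y, cl x = cl y → f x = f y → x = y) ∧
      ∀ x y, Γ.Adj x y → cl x ≠ cl y → f x ≠ f y := by
  obtain ⟨f, hf1, hf2, -, hf4, -⟩ := hinj V Empty Ix Γ cl Pal ∅ (s - 2) 2
    (fun o => o.elim) (fun o => o.elim) (by omega) le_rfl
    (fun i => by rw [hPal]; exact hclu i) (fun i => by rw [hPal]; omega)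
    (fun i => by rw [hPal]; omega) (fun o => o.elim) (fun x => by simp [row])
    (fun i l _ => by simp)
    (fun x => by
      have h1 : (univ.filter (fun y => Γ.Adj x y ∧ cl y ≠ cl x)).card ≤
          (univ.filter (fun y => Γ.Adj x y)).card := by
        apply Finset.card_le_card
        intro y hy
        rw [mem_filter] at hy ⊢
        exact ⟨hy.1, hy.2.1⟩
      have h2 := hΓd x
      omega)
    (fun i => by
      have h1 : (univ.filter (fun z : V × V => cl z.1 = i ∧ Γ.Adj z.1 z.2 ∧ cl z.2 ≠ i)).card ≤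
          ∑ x ∈ univ.filter (fun x => cl x = i), (univ.filter (fun y => Γ.Adj x y)).card := by
        rw [← Finset.card_sigma]
        apply Finset.card_le_card_of_injOn (fun z : V × V => (⟨z.1, z.2⟩ : Σ _ : V, V))
        · intro z hz
          have hz' := (mem_filter.1 (Finset.mem_coe.1 hz)).2
          rw [Finset.mem_coe, Finset.mem_sigma]
          exact ⟨mem_filter.2 ⟨mem_univ _, hz'.1⟩, mem_filter.2 ⟨mem_univ _, hz'.2.1⟩⟩
        · intro z _ z' _ he
          simp only [Sigma.mk.injEq, heq_eq_eq] at he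
          exact Prod.ext he.1 he.2
      have h2 : ∑ x ∈ univ.filter (fun x => cl x = i), (univ.filter (fun y => Γ.Adj x y)).card ≤
          s * t := by
        refine le_trans (Finset.sum_le_card_nsmul _ _ t (fun x _ => hΓd x)) ?_
        rw [smul_eq_mul]
        exact Nat.mul_le_mul_right t (hclu i)
      have h3 : 64 * (s * t) ≤ (s - 2) ^ 2 := by
        obtain ⟨r, hr⟩ : ∃ r, s = 128 * t + 70 + r := ⟨s - (128 * t + 70), by omega⟩
        have : s - 2 = 128 * t + 68 + r := by omega
        rw [this, hr]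
        nlinarith [Nat.zero_le t, Nat.zero_le r, Nat.zero_le (t * r), Nat.zero_le (t * t)]
      omega)
    (fun o => o.elim) (fun x => by
      rw [Finset.univ_eq_empty, Finset.sum_empty]; positivity)
    (fun i l _ => by rw [Finset.univ_eq_empty, Finset.sum_empty]; positivity)
  exact ⟨f, hf1, hf2, hf4⟩

theorem t_LAB : S_LAB := by
  intro V _ G I Z s t a base hst hD hZ hN
  have hs0 : 0 < s := by omega
  -- the clique of a mid
  have hK : ∀ v : V, ∃ K : Finset V, v ∈ ZZ I Z → K ∈ I ∧ v ∈ Z K := by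
    intro v
    by_cases hv : v ∈ ZZ I Z
    · obtain ⟨K, h1, h2⟩ := Finset.mem_biUnion.1 hv
      exact ⟨K, fun _ => ⟨h1, h2⟩⟩
    · exact ⟨∅, fun h => absurd h hv⟩
  choose kk hkk using hK
  have hkk' : ∀ K ∈ I, ∀ z ∈ Z K, kk z = K := by
    intro K hKI z hz
    have hzZ : z ∈ ZZ I Z := Finset.mem_biUnion.2 ⟨K, hKI, hz⟩
    obtain ⟨h1, h2⟩ := hkk z hzZ
    by_contra hne
    have h3 := hD _ h1 _ hKI hne
    exact Finset.disjoint_left.1 h3 ((hZ _ h1).1 h2) ((hZ _ hKI).1 hz)
  have hS := fun K : Finset V => srt a (Z K)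
  choose σ hσ1 hσ2 hσ3 using hS
  -- the median
  have hM : ∀ K : Finset V, ∃ b : ℕ, K ∈ I → (∃ z ∈ Z K, b = a z) ∧
      (∀ z ∈ Z K, σ K z < 2 * s → a z ≤ b) ∧ ∀ z ∈ Z K, 2 * s ≤ σ K z → b ≤ a z := by
    intro K
    by_cases hKI : K ∈ I
    · have hc := (hZ K hKI).2
      have himg : (Z K).image (σ K) = Finset.range (4 * s) := by
        apply Finset.eq_of_subset_of_card_le
        · intro r hr
          obtain ⟨z, hz, rfl⟩ := Finset.mem_image.1 hr
          have := hσ1 K z hz
          rw [hc] at this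
          exact Finset.mem_range.2 this
        · rw [Finset.card_image_of_injOn, hc, Finset.card_range]
          intro z hz z' hz' he
          exact hσ2 K z hz z' hz' he
      have h2 : 2 * s ∈ (Z K).image (σ K) := by
        rw [himg, Finset.mem_range]; omega
      obtain ⟨m, hm, hm2⟩ := Finset.mem_image.1 h2
      refine ⟨a m, fun _ => ⟨⟨m, hm, rfl⟩, ?_, ?_⟩⟩
      · intro z hz hlt
        exact hσ3 K z hz m hm (by omega)
      · intro z hz hle
        rcases Nat.lt_or_ge (2 * s) (σ K z) with h | h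
        · exact hσ3 K m hm z hz (by omega)
        · have : m = z := hσ2 K m hm z hz (by omega)
          rw [this]
    · exact ⟨0, fun h => absurd h hKI⟩
  choose b hb using hM
  -- apply the lemma
  let cl : V → V ⊕ (Finset V × ℕ) := fun v =>
    if v ∈ ZZ I Z then Sum.inr (kk v, σ (kk v) v / s) else Sum.inl v
  let Pal : V ⊕ (Finset V × ℕ) → Finset ℕ := fun i =>
    match i with
    | Sum.inl _ => Finset.range s
    | Sum.inr q => Finset.Ico (base q.1 + b q.1 + 1 + q.2 * s) (base q.1 + b q.1 + 1 + q.2 * s + s)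
  have hPal : ∀ i, (Pal i).card = s := by
    intro i
    rcases i with v | q
    · simp [Pal]
    · simp [Pal]
  let Γ : SimpleGraph V :=
    { Adj := fun u v => G.Adj u v ∧ u ∈ ZZ I Z ∧ v ∈ ZZ I Z ∧ kk u ≠ kk v
      symm := ⟨fun u v h => ⟨h.1.symm, h.2.2.1, h.2.1, h.2.2.2.symm⟩⟩
      loopless := ⟨fun u h => h.2.2.2 rfl⟩ }
  have hΓd : ∀ x, ∀ inst : DecidablePred (fun y => Γ.Adj x y),
      (@Finset.filter V (fun y => Γ.Adj x y) inst univ).card ≤ t := by
    intro x _
    by_cases hx : x ∈ ZZ I Z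
    · obtain ⟨h1, h2⟩ := hkk x hx
      refine le_trans (Finset.card_le_card ?_) (hN (kk x) h1 x h2)
      intro y hy
      have hy' : Γ.Adj x y := (mem_filter.1 hy).2
      rw [mem_filter, mem_sdiff]
      refine ⟨⟨hy'.2.2.1, fun hc => hy'.2.2.2 ?_⟩, hy'.1⟩
      exact (hkk' (kk x) h1 y hc).symm
    · rw [Finset.filter_eq_empty_iff.2]
      · simp
      · intro y _ hy
        exact hx hy.2.1
  have hclu : ∀ i, ∀ inst : DecidablePred (fun x => cl x = i),
      (@Finset.filter V (fun x => cl x = i) inst univ).card ≤ s := by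
    intro i _
    rcases i with v | ⟨K, j⟩
    · have : (univ.filter (fun x => cl x = Sum.inl v)).card ≤ ({v} : Finset V).card := by
        apply Finset.card_le_card
        intro x hx
        have hx' := (mem_filter.1 hx).2
        by_cases hxZ : x ∈ ZZ I Z
        · simp [cl, hxZ] at hx'
        · simp [cl, hxZ] at hx'
          simp [hx']
      simp at this
      omega
    · refine le_trans (Finset.card_le_card ?_) (clu (Z K) (σ K) s j hs0 (hσ2 K))
      intro x hx
      have hx' := (mem_filter.1 hx).2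
      by_cases hxZ : x ∈ ZZ I Z
      · simp only [cl, hxZ, if_true, Sum.inr.injEq, Prod.mk.injEq] at hx'
        obtain ⟨h1, h2⟩ := hkk x hxZ
        rw [hx'.1] at h2
        rw [mem_filter]
        refine ⟨h2, ?_⟩
        rw [← hx'.2, hx'.1]
      · simp [cl, hxZ] at hx'
  obtain ⟨f, hf1, hf2, hf4⟩ := hinj2 V (V ⊕ (Finset V × ℕ)) Γ cl Pal s t hst hPal
    (fun x => hΓd x _) (fun i => hclu i _)
  -- the labels
  have hcl : ∀ K ∈ I, ∀ z ∈ Z K, cl z = Sum.inr (K, σ K z / s) := by
    intro K hKI z hz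
    have hzZ : z ∈ ZZ I Z := Finset.mem_biUnion.2 ⟨K, hKI, hz⟩
    have := hkk' K hKI z hz
    simp only [cl, hzZ, if_true, this]
  have hfz : ∀ K ∈ I, ∀ z ∈ Z K, base K + b K + 1 + σ K z / s * s ≤ f z ∧
      f z < base K + b K + 1 + σ K z / s * s + s := by
    intro K hKI z hz
    have h1 := hf1 z
    rw [hcl K hKI z hz] at h1
    simpa [Pal] using h1
  have hq : ∀ K ∈ I, ∀ z ∈ Z K, (f z - (base K + b K + 1)) / s = σ K z / s := by
    intro K hKI z hz
    obtain ⟨h1, h2⟩ := hfz K hKI z hz
    apply Nat.div_eq_of_lt_le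
    · omega
    · have : (σ K z / s + 1) * s = σ K z / s * s + s := by ring
      omega
  refine ⟨fun z => f z - (base (kk z) + b (kk z) + 1), b, ?_, ?_, ?_, ?_, ?_, ?_, ?_⟩
  · intro K hKI z hz
    obtain ⟨h1, h2⟩ := hfz K hKI z hz
    simp only [hkk' K hKI z hz]
    have h3 : σ K z / s < 4 := by
      rw [Nat.div_lt_iff_lt_mul hs0]
      have := hσ1 K z hz
      rw [(hZ K hKI).2] at this
      exact this
    have h4 : σ K z / s * s ≤ 3 * s := Nat.mul_le_mul_right s (by omega)
    omega
  · intro K hKI z hz z' hz' he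
    simp only [hkk' K hKI z hz, hkk' K hKI z' hz'] at he
    have h1 := hq K hKI z hz
    have h2 := hq K hKI z' hz'
    rw [he] at h1
    apply hf2
    · rw [hcl K hKI z hz, hcl K hKI z' hz', ← h1, ← h2]
    · have h3 := hfz K hKI z hz
      have h4 := hfz K hKI z' hz'
      omega
  · intro K hKI z hz z' hz' he
    simp only [hkk' K hKI z hz, hkk' K hKI z' hz'] at he
    rw [hq K hKI z hz, hq K hKI z' hz'] at he
    apply hσ3 K z hz z' hz'
    by_contra hc
    push Not at hc
    have := Nat.div_le_div_right (c := s) hc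
    omega
  · intro K hKI z hz he
    simp only [hkk' K hKI z hz] at he
    apply (hb K hKI).2.1 z hz
    obtain ⟨h1, h2⟩ := hfz K hKI z hz
    have h3 : σ K z / s < 2 := by
      by_contra hc
      push Not at hc
      have : 2 * s ≤ σ K z / s * s := Nat.mul_le_mul_right s hc
      omega
    rw [Nat.div_lt_iff_lt_mul hs0] at h3
    exact h3
  · intro K hKI z hz he
    simp only [hkk' K hKI z hz] at he
    apply (hb K hKI).2.2 z hz
    obtain ⟨h1, h2⟩ := hfz K hKI z hz
    have h3 : 2 ≤ σ K z / s := by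
      by_contra hc
      push Not at hc
      have : σ K z / s * s ≤ 1 * s := Nat.mul_le_mul_right s (by omega)
      omega
    rw [Nat.le_div_iff_mul_le hs0] at h3
    exact h3
  · intro K hKI
    exact (hb K hKI).1
  · intro K hKI K' hKI' hne z hz z' hz' hadj
    simp only [hkk' K hKI z hz, hkk' K' hKI' z' hz']
    have h1 := hfz K hKI z hz
    have h2 := hfz K' hKI' z' hz'
    have h3 : f z ≠ f z' := by
      apply hf4
      · refine ⟨hadj, Finset.mem_biUnion.2 ⟨K, hKI, hz⟩, Finset.mem_biUnion.2 ⟨K', hKI', hz'⟩, ?_⟩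
        rw [hkk' K hKI z hz, hkk' K' hKI' z' hz']
        exact hne
      · rw [hcl K hKI z hz, hcl K' hKI' z' hz']
        intro hc
        simp only [Sum.inr.injEq, Prod.mk.injEq] at hc
        exact hne hc.1
    omega

end Pool.Agent.H64.HV
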